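import Pool.Agent.helper62.QU.Spec

/-! Row TTT: the point pair invariant. -/

open scoped MatrixGroups ContDiff Topology UpperHalfPlane
open UpperHalfPlane MeasureTheory Filter Set

namespace Pool.Agent.QU

theorem TTT_eq (z w : ℍ) : tt z w = Real.cosh (dist z w) - 1 := by
  unfold tt
  rw [UpperHalfPlane.cosh_dist, Complex.dist_eq]
  ring

theorem TTT : TTT_stmt := by
  refine ⟨TTT_eq, ?_, ?_, ?_, ?_, ?_, ?_, ?_⟩
  · intro z w
    rw [TTT_eq]
    have := Real.one_le_cosh (dist z w)
    linarith
  · intro z w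
    rw [TTT_eq, TTT_eq, dist_comm]
  · intro g z w
    rw [TTT_eq, TTT_eq, dist_smul]
  · have h : (fun p : ℍ × ℍ => tt p.1 p.2) = fun p : ℍ × ℍ => Real.cosh (dist p.1 p.2) - 1 :=
      funext fun p => TTT_eq p.1 p.2
    rw [h]
    exact (Real.continuous_cosh.comp continuous_dist).sub continuous_const
  · intro s
    refine ⟨|s| + 1, by positivity, fun z w h => ?_⟩
    rw [TTT_eq] at h
    have h1 := Real.self_le_sinh_iff.2 (dist_nonneg (x := z) (y := w))
    have h2 := Real.sinh_lt_cosh (dist z w)
    have h3 := le_abs_self s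
    linarith
  · intro R hR
    have h0 : 1 < Real.cosh R := Real.one_lt_cosh.2 hR.ne'
    refine ⟨Real.cosh R - 1, by linarith, fun z w h => ?_⟩
    rw [TTT_eq] at h
    have h1 : Real.cosh (dist z w) < Real.cosh R := by linarith
    rw [Real.cosh_lt_cosh, abs_of_nonneg dist_nonneg, abs_of_pos hR] at h1
    exact h1
  · intro z w
    exact MulAction.exists_smul_eq SL(2, ℝ) z w

end Pool.Agent.QU
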